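import Pool.Agent.V7H2.AB.Jan

/-!
# What it means that the category of Chow motives over a finite field is abelian

`C` is a `ℚ`-linear rigid symmetric monoidal category with `End(1) = ℚ`, with a Frobenius
endomorphism of every object which commutes with all morphisms, and with a cohomological
realisation (`Realisation`): additive functors `H i` with the Künneth formula, the Lefschetz trace
formula and weights (the eigenvalues of the Frobenius on `H i M` are Weil numbers of weight `i`, the
characteristic polynomial is rational). For example, `C` is the category `CHMot(k)` of Chow motives
with rational coefficients over the field `k` with `q` elements, with the commutativity constraint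
given by `X × Y = Y × X`, the geometric Frobenius and `ℓ`-adic cohomology (Grothendieck, Deligne,
Katz-Messing), or a thick rigid tensor subcategory of it. Then `Hom(1, h(X)(i)) = CH^i(X)_ℚ`.

Theorem. If `C` is abelian then

1. every nonzero morphism `f` from `1` is a monomorphism and no tensor power of `f` is zero (so
   no nonzero cycle is smash-nilpotent);
2. the characteristic polynomials of the Frobenius (so also the zeta functions) are
   multiplicative in short exact sequences; the functors `H i` are not assumed to be exact;
3. there are no phantoms: an object without cohomology is zero;
4. `Hom(1, M)` is finite-dimensional, of dimension at most the dimension of the space of Tate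
   classes in `H 0 M`; so `dim CH^i(X)_ℚ` is at most the dimension of the space of Tate classes in
   `H^{2i}(X)(i)`;
5. numerically trivial endomorphisms are nilpotent, and so are the endomorphisms which are
   nilpotent on the cohomology;
6. every object is the direct sum of objects with cohomology in one degree (a Chow-Künneth
   decomposition), by projectors which are rational polynomials in the Frobenius endomorphism;
7. if a morphism is bijective on `H i` then the inverse on `H i` is also induced by a morphism (for
   the powers of the Lefschetz operator this is the standard conjecture of Lefschetz type); a
   morphism which is bijective on the cohomology is an isomorphism;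
8. the length of an object is at most the dimension of its cohomology;
9. if the conjecture of Tate holds for `M` then there are no nonzero homologically trivial morphisms
   from `1` to `M`;
10. if the strong form of the conjecture of Tate holds for `M` then there are no nonzero
   numerically trivial morphisms from `1` to `M`.

Moreover, if the strong form of the conjecture of Tate holds for all objects of `C`, and `C` is
pseudo-abelian with finite products, then `C` is abelian if and only if there are no nonzero
numerically trivial morphisms (rational equivalence is numerical equivalence).

Idea of the proof. The trace is additive on short exact sequences (the tensor product is exact). If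
`U` is a subobject of the unit, with quotient `V`, then `U ⊗ V = 0` and `dim U + dim V = 1`, so
`U = 0` or `V = 0`: the unit is simple. By the weights there is no cancellation in the trace
formula, so the dimensions of the `H i` are additive although `H i` may not be exact. So the objects
have finite length, if there are no phantoms; but if `P` is a phantom then `P ⊗ P^∨` is a phantom
with the quotient `1`.
-/

set_option autoImplicit false

open CategoryTheory CategoryTheory.Limits MonoidalCategory

namespace Pool.Agent.Results.MP_6c4da4_ag.AbelianConsequencesH2

open Pool.Agent.V7H2.AB

universe v u

theorem result {q : ℕ} (hq : 2 ≤ q) {K : Type} [Field K] [CharZero K] [IsAlgClosed K]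
    {C : Type u} [Category.{v} C] [Preadditive C] [Linear ℚ C] [MonoidalCategory C]
    [SymmetricCategory C] [RightRigidCategory C] [MonoidalPreadditive C] [MonoidalLinear ℚ C]
    (hU : UnitQ C) (R : Realisation q K C) :
    (IsAbelianCat C →
      NoSmash C ∧ ZetaMultiplicative R ∧ NoPhantom R ∧ RankBound R ∧ Nilpotence R ∧
      Decomposition R ∧ Inverses R ∧ FiniteLength R ∧ TateHom R ∧ TateNum R) ∧
    (HasFiniteProducts C → IsIdempotentComplete C → (∀ M : C, StrongTateFor R M) →
      (IsAbelianCat C ↔ NumTrivVanish C)) :=
  ⟨fun hA => main hq hU R hA, fun _ _ hT => abelian_iff R hU hq hT⟩

end Pool.Agent.Results.MP_6c4da4_ag.AbelianConsequencesH2
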