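import Mathlib
import Pool.Agent.V7H82.MO.Main

/-!
# Abelian categories of Chow motives over finite fields

Over a finite field each abelian variety becomes isogenous, after a finite extension, to the
reduction `Z` of an abelian variety of CM type (`RedAV`; Honda, Tate), with CM fields `E i` and
Frobenius endomorphisms `π i ∈ E i`. A CM field `E` of degree `2 n` with real subfield `E⁺` is good
(`IsGoodField`) if

* `n` is one or a prime number, or
* any two embeddings of `E⁺` can be moved to any two others by an automorphism of `ℂ` (in some
  order), and `n` is odd, or `n - 1` is a prime number, or the same is true for any three embeddings
  (so `n` is arbitrary if the Galois group of the closure of `E⁺` is the symmetric or the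
  alternating group of degree `n`), or
* `E⁺` has no subfields besides `ℚ` and `E⁺`, and the degree of the Galois closure of `E` is more than
  twice the degree of the Galois closure of `E⁺`.

The factors are independent (`AreIndependent`) if for any two embeddings of `E i` and `E k`, `i ≠ k`,
some automorphism of `ℂ` fixes one of them and conjugates the other; this is no condition if there
is one factor. The factor `i` is of Weil type (`IsWeilType`) if there is an imaginary quadratic
subfield `K` of `E i` such that the product of the eigenvalues `φ (π i)`, for the embeddings `φ` of
`E i` with the same restriction to `K`, is `q ^ (n / 2)` up to a root of unity.

**Theorem.** Suppose that the fields `E i` are good, that the factors are independent and that no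
factor of dimension greater than five is of Weil type. Let `C` be the category of Chow motives with
rational coefficients over a finite field `k` which is generated by the abelian varieties over `k` that
become, over finite extensions, isogenous to products of powers of the factors of `Z` and of
supersingular abelian varieties. Then rational and numerical equivalence coincide in `C`, each
morphism has a quasi-inverse, and **`C` is an abelian category** (and semisimple).

The slopes and the CM types of the factors are arbitrary; the dimensions and the number of the factors
are not bounded. For example this holds for all powers of one abelian variety of prime dimension, or of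
one whose real subfield has the symmetric or alternating Galois group, if it is not of Weil type.

Proof. The relations between the Frobenius eigenvalues are generated by relations between two
eigenvalues and by relations on factors of dimension at most five (`elementary_of_good`, by the group
theory of `Pool.Agent.Results.MP_ffcd14_ag.TwoTransitiveH82`), so all Tate classes on all products are
algebraic. As homologically trivial correspondences are nilpotent (Kimura) and Frobenius acts on
`CH^n` as `q ^ n`, rational and numerical equivalence coincide (`rat_num`). By Jannsen each
morphism has then a quasi-inverse, and an idempotent complete category with this property is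
abelian (`abelian_of_regular`).
-/

set_option autoImplicit false

universe v u

namespace Pool.Agent.Results.MP_6c4da4_ag.GoodFieldsH82

open CategoryTheory Limits Module
open Pool.Agent.W495.TA Pool.Agent.V7H82.HS Pool.Agent.V7H82.MO

/-- **The category of Chow motives over a finite field generated by abelian varieties with good
CM fields, independent factors and no factor of dimension larger than five of Weil type is
abelian.** -/
theorem result (p : ℕ) [Fact p.Prime] (ν : PadicAlgCl p ≃+* ℂ) (Ω : Type) [Field Ω]
    [IsAlgClosed Ω] [CharZero Ω] (Z : RedAV p ν)
    (hgood : ∀ i : Z.X.I, IsGoodField (Z.X.factor i).E) (hind : AreIndependent Z)
    (hweil : ∀ i : Z.X.I, 10 < finrank ℚ (Z.X.factor i).E → ¬ IsWeilType Z i)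
    (C : Type u) [Category.{v} C] [Preadditive C] [HasFiniteProducts C] [IsIdempotentComplete C]
    (D : MotiveData Ω Z C) :
    (∀ {M N : C} (f : M ⟶ N), D.NumTriv f → f = 0) ∧
      (∀ {M N : C} (f : M ⟶ N), ∃ g : N ⟶ M, f ≫ g ≫ f = f) ∧ Nonempty (Abelian C) :=
  main Ω (Pool.Agent.V7H82.HT.elementary_of_good hgood hind hweil) C D

end Pool.Agent.Results.MP_6c4da4_ag.GoodFieldsH82
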