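import Pool.Agent.V7H32.LN.Semi

/-!
# Abelianness of Chow motives: exterior products, and motives of abelian type over finite fields

`C` is a `K`-linear rigid symmetric monoidal category whose unit has the endomorphism ring `K`, for
example the category `CHMot(k)` of Chow motives over a field `k` (`K = ℚ`); then the morphisms
`z : 𝟙 ⟶ M`, `M = h(X)(i)`, are the cycle classes in `CH^i(X)` and `z ⊗ w` is the exterior product.

1. `C` need not be abelian.  If a nonzero `z : 𝟙 ⟶ M` has a kernel, then it is a monomorphism, its
   exterior products with all nonzero morphisms are nonzero, and so are its tensor powers.  So a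
   nonzero smash nilpotent cycle class, for instance a nonzero algebraically trivial one
   (Voevodsky, Voisin), is a morphism without a kernel.
2. If `C` is abelian, then the exterior product `Hom(𝟙, M) ⊗ Hom(X, N) → Hom(X, M ⊗ N)` is
   injective for all `M`, `N`, `X`.
3. If `C` is abelian, then there are no nonzero numerically trivial morphisms between objects of
   line type, and a nonzero morphism from the unit to such an object splits.
4. If `C` is abelian and all its objects are of line type, then all epimorphisms split: `C` is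
   semisimple.
5. The objects of line type are closed under tensor products, duals, retracts and finite sums.
   All invertible objects are of this type, and all objects `T` with an action of a commutative
   algebra `E` such that `T ⊗ T` over `E` is symmetric or antisymmetric: for an etale algebra
   `E` let `e = ∑ a i ⊗ b i` be the separability idempotent.

Example: `k` a finite field.  Every abelian variety `A` over `k` has an etale algebra `E` of
endomorphisms of degree `2 dim A` (Tate), `H¹(A)` is free of rank one over `E ⊗ ℚ_ℓ`, so the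
symmetry acts on the `E`-part of `h¹(A) ⊗ h¹(A)` as `-1`, homologically and, as the motive is
finite dimensional (Kimura), also modulo rational equivalence.  Hence all Chow motives of abelian
type over `k` are of line type, for instance those of the products of curves.  So if `CHMot(k)` is
abelian then rational and numerical equivalence (with rational coefficients) agree on all products
of curves over `k`; the Tate conjecture is not assumed.  And the category of Chow motives of
abelian type over `k` is abelian if and only if rational and numerical equivalence agree for them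
(`if` is the theorem of Jannsen).

Idea of the proof.  1. For a monomorphism `i : X ⟶ 𝟙` the two morphisms `i ⊗ X`, `X ⊗ i` agree, so
the dimension `d` of `X` satisfies `d ∘ i = i`, and `d = 1` if `i` is not zero.  If `z` kills `i`,
then `z ⊗ X = 0` and so `z = d ∘ z = 0`.  2. So the unit is simple, and one uses induction on the
number of the summands.  3. Let `q` be the cokernel of the morphism `𝟙 ^ r ⟶ T` given by a basis
of the span of the `a i ∘ z`, `b' k ∘ z`.  The relation between `e` and the symmetry, evaluated at
`z ⊗ 1`, shows `∑ (a i ∘ z) ⊗ (q ∘ b i) = 0`, and by 2. an endomorphism of `T` which fixes `z`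
factors through `𝟙 ^ r`.
-/

set_option autoImplicit false

open CategoryTheory MonoidalCategory BraidedCategory Limits

namespace Pool.Agent.Results.MP_6c4da4_ag.LinesH32

open Pool.Agent.V7H32.LN

universe w v u x

theorem result {K : Type w} [Field K] {C : Type u} [Category.{v} C] [Preadditive C] [Linear K C]
    [MonoidalCategory C] [MonoidalPreadditive C] [MonoidalLinear K C] [SymmetricCategory C]
    [RigidCategory C] (hC : ScalarUnit K C) :
    -- a nonzero morphism from the unit which has a kernel
    (∀ (M : C) (z : 𝟙_ C ⟶ M), z ≠ 0 → HasKernel z →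
      Mono z ∧ (∀ (P Q : C) (w : P ⟶ Q), w ≠ 0 → z ⊗ₘ w ≠ 0) ∧ ∀ n : ℕ, zpow z n ≠ 0) ∧
    -- `C` is abelian
    (IsAb C →
      -- exterior products
      (∀ (M N X : C) (ι : Type x) [Fintype ι] (z : ι → (𝟙_ C ⟶ M)) (y : ι → (X ⟶ N)),
        LinearIndependent K z → ∑ i, (z i ⊗ₘ y i) = 0 → ∀ i, y i = 0) ∧
      -- objects of line type
      (∀ (M : C) (z : 𝟙_ C ⟶ M), LineType M → z ≠ 0 → ∃ g : M ⟶ 𝟙_ C, z ≫ g = 𝟙 _) ∧
      (∀ (M N : C) (f : M ⟶ N), LineType M → LineType N → f ≠ 0 →
        ∃ g : N ⟶ M, trace (f ≫ g) = 𝟙 _) ∧
      ((∀ M : C, LineType M) → ∀ (M N : C) (p : M ⟶ N), Epi p → IsSplitEpi p)) ∧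
    -- the class of the objects of line type
    (∀ M N : C, LineType M → LineType N → LineType (M ⊗ N)) ∧
    (∀ M : C, LineType M → LineType (Mᘁ : C)) ∧
    (∀ (M N : C) (i : N ⟶ M) (p : M ⟶ N), LineType M → i ≫ p = 𝟙 N → LineType N) ∧
    (∀ (M N P : C) (i : P ⟶ M) (p : M ⟶ P) (i' : P ⟶ N) (p' : N ⟶ P), LineType M → LineType N →
      i ≫ p + i' ≫ p' = 𝟙 P → LineType P) ∧
    (∀ L L' : C, Nonempty (L ⊗ L' ≅ 𝟙_ C) → LineType L) ∧
    (∀ (E : Type x) [CommRing E] [Algebra K E] (T : C) (ρ : E →ₐ[K] End T) (ι : Type) [Fintype ι]
      (a b : ι → E) (s : ℤ), ∑ i, a i * b i = 1 →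
      (β_ T T).hom ≫ ∑ i, ((ρ (a i) : T ⟶ T) ⊗ₘ (ρ (b i) : T ⟶ T)) =
        s • ∑ i, ((ρ (a i) : T ⟶ T) ⊗ₘ (ρ (b i) : T ⟶ T)) → LineType T) := by
  refine ⟨?_, ?_, fun M N h1 h2 => h1.tensor h2, fun M h => h.dual,
    fun M N i p h1 h2 => h1.retract i p h2, fun M N P i p i' p' h1 h2 h3 => h1.sum h2 i p i' p' h3,
    fun L L' ⟨i⟩ => (IsLineSum.of_invertible hC i).lineType,
    fun E _ _ T ρ ι _ a b s h1 h2 => (IsLineSum.of_algebra ρ a b h1 s h2).lineType⟩
  · intro M z hz hk
    obtain ⟨h1, h2⟩ := part_one hC z hz hk
    refine ⟨h1, ?_, h2⟩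
    intro P Q w hw h0
    apply hw
    have h3 : (tensorRight Q).IsRightAdjoint := ⟨_, ⟨tensorRightAdjunction (ᘁQ) Q⟩⟩
    have h4 : Mono (z ▷ Q) := inferInstanceAs (Mono ((tensorRight Q).map z))
    rw [tensorHom_def'] at h0
    have h5 : 𝟙_ C ◁ w = 0 := by
      rw [← cancel_mono (z ▷ Q), h0, zero_comp]
    rw [id_whiskerLeft] at h5
    rw [← cancel_epi (λ_ P).hom, ← cancel_mono (λ_ Q).inv, Category.assoc, h5]
    simp
  · rintro ⟨h1, h2, h3, h4, h5⟩
    let A : Abelian C :=
      { ‹Preadditive C›, h4, h5 with
        has_finite_products := h1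
        has_kernels := h2
        has_cokernels := h3 }
    refine ⟨?_, fun M z hM hz => split_of_lineType hC hM z hz,
      fun M N f hM hN hf => numerical hC hM hN f hf, ?_⟩
    · intro M N X ι _ z y hz hs
      refine indep_tensor hC z hz (ᘁN) y ?_
      rw [← Preadditive.comp_sum, hs, comp_zero]
    · intro hall M N p hp
      exact semisimple hC (fun M z hz => split_of_lineType hC (hall M) z hz) p

end Pool.Agent.Results.MP_6c4da4_ag.LinesH32
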