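import Mathlib
import Pool.Agent.V7H82.MO.Main
import Pool.Agent.V7H95.Fin.Elem

/-!
# Abelian categories of Chow motives over finite fields: abelian varieties whose Frobenius eigenvalues
# lie in regular blocks

Over a finite field each abelian variety becomes isogenous, after a finite extension, to the
reduction of an abelian variety of CM type (`RedAV`; Honda, Tate). Let `Z` be such a variety over the
field with `q` elements. The complex Frobenius eigenvalues `x` on its first cohomology have slopes `λ`
(`slope`, normalised such that `q` has slope one), the complex conjugate of `x` is `q / x`; the weights
are the numbers `u = D (2 λ - 1)`, with a denominator `D > 0` such that they are integers (one may take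
another `D` for each Galois orbit). Suppose (`HasRegularBlocks`) that each eigenvalue `x` of `Z`

* generates a number field which has degree `ℓ ^ k`, `ℓ` a prime number, over an imaginary quadratic
  subfield `K`, and `ℓ` does not divide the sum of the weights over the conjugates of `x` over `K`
  (`IsOverQuadratic`);
* or it generates a field of degree `2 ℓ ^ k`, and the sum of the weights over each set that contains
  one of each two complex conjugate conjugates of `x` is not divisible by `ℓ`
  (`HasPrimePowerDegree`);
* or it belongs to a regular block (`IsInRegularBlock`): a set `B` of eigenvalues without complex
  conjugate elements which is stable under a group `P` of automorphisms of the complex numbers that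
  act on `B` with orders which are powers of a prime number `ℓ`, such that `B` is one orbit of `P` and
  for some automorphism `σ` the sum of the weights `u (σ y)`, `y ∈ B`, is not divisible by `ℓ`; or, more
  generally, such that all functions on `B` modulo `ℓ` which are invariant under `P` and orthogonal to
  all translates of the weights vanish (for instance `B = {x}`, if some conjugate of `x` has a weight
  which is not divisible by `ℓ`);
* or it is real (supersingular), or it belongs to a small class, for example to a factor of dimension
  at most five which is independent of the other factors.

In the first three cases `x` (the block) shall be flipped against the nonreal eigenvalues outside of
its Galois orbit (outside of `B` and its conjugate): an automorphism of the complex numbers fixes one of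
the two and conjugates the other, or maps `x` to `y` and `y` to the conjugate of `x`. This is no
condition if `Z` is a power of a simple variety, in the first two cases. **Nothing is assumed on the
Galois groups of the number fields**, on the endomorphism algebras (which need not be
commutative) and on the dimensions.

**Theorem.** Let `C` be the category of Chow motives with rational coefficients over a finite field `k`
which is generated by the abelian varieties over `k` that become, over finite extensions, isogenous to
products of powers of the factors of `Z` and of supersingular abelian varieties. Then rational and
numerical equivalence coincide in `C`, each morphism has a quasi-inverse, and **`C` is an abelian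
category** (and semisimple).

Proof. A multiplicative relation between the Frobenius eigenvalues, `q` and roots of unity is a
relation between the translates of the weights. It splits according to the blocks, since the
correlation of flipped eigenvalues is zero (`rel_block`). On a block, the relations modulo `ℓ` form a
vector space over the field with `ℓ` elements on which a group acts through an `ℓ`-group; if there is a
relation, then there is a nonzero invariant one, which contradicts the condition on the weights
(`block_mod`; if the degree is `ℓ ^ k` over an imaginary quadratic field one takes a Sylow subgroup,
which is transitive). So all relations are generated by those between complex conjugate eigenvalues and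
by those between the eigenvalues of the small classes (`elementary_of_blocks`), and all Tate classes on
all products are algebraic. The rest of the proof is as in `Pool.Agent.V7H82.MO`: homologically trivial
correspondences are nilpotent (Kimura) and Frobenius acts on `CH^n` as `q ^ n`, so rational and
numerical equivalence coincide, by Jannsen each morphism has a quasi-inverse, and an idempotent
complete category with this property is abelian.
-/

set_option autoImplicit false

universe v u

namespace Pool.Agent.Results.MP_6c4da4_ag.PrimePowerBlocksH95

open CategoryTheory Limits
open Pool.Agent.W495.TA Pool.Agent.V7H82.MO Pool.Agent.V7H95.Fin

/-- **The category of Chow motives over a finite field generated by abelian varieties whose Frobenius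
eigenvalues lie in regular blocks** (for example generate fields of prime power degree over imaginary
quadratic fields, with a sum of weights which is prime to this degree) **is abelian.** -/
theorem result (p : ℕ) [Fact p.Prime] (ν : PadicAlgCl p ≃+* ℂ) (Ω : Type) [Field Ω]
    [IsAlgClosed Ω] [CharZero Ω] (Z : RedAV p ν) (hZ : HasRegularBlocks Z)
    (C : Type u) [Category.{v} C] [Preadditive C] [HasFiniteProducts C] [IsIdempotentComplete C]
    (D : MotiveData Ω Z C) :
    (∀ {M N : C} (f : M ⟶ N), D.NumTriv f → f = 0) ∧
      (∀ {M N : C} (f : M ⟶ N), ∃ g : N ⟶ M, f ≫ g ≫ f = f) ∧ Nonempty (Abelian C) :=
  main Ω (elementary_of_blocks hZ) C D

end Pool.Agent.Results.MP_6c4da4_ag.PrimePowerBlocksH95
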